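import Mathlib

/-!
# No circulant graph of order 15 has monophonic position number two and diameter two

If the circulant graph of order 15 with connection set `C` contains a triangle, the triangle is a
monophonic position set of size three. If it is triangle-free and has diameter two, then `C` is
`{±1, ±4, ±6}` or `{±2, ±3, ±7}`; then `0` and `5` are non-adjacent with the same neighbours, and
together with a further vertex `z` not adjacent to `0` they form a monophonic position set: an
induced path through `0` and `5` has only one further vertex, and this vertex is a common neighbour.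
-/

set_option autoImplicit false

namespace Pool.Agent.Results.MP_1f00fa_co.NoOrderFifteen

open SimpleGraph

/-- `S` is a monophonic position set of `G`: no three distinct vertices of `S` lie on a common
monophonic (induced) path, that is, on an induced subgraph isomorphic to a path. -/
def IsMonophonicPositionSet {V : Type} (G : SimpleGraph V) (S : Finset V) : Prop :=
  ∀ x ∈ S, ∀ y ∈ S, ∀ z ∈ S, x ≠ y → x ≠ z → y ≠ z → ∀ (m : ℕ) (φ : pathGraph m ↪g G),
    ¬ (x ∈ Set.range φ ∧ y ∈ Set.range φ ∧ z ∈ Set.range φ)

/-- The monophonic position number of a finite graph, the largest size of a monophonic position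
set. -/
noncomputable def mp {V : Type} (G : SimpleGraph V) : ℕ :=
  sSup {k | ∃ S : Finset V, IsMonophonicPositionSet G S ∧ S.card = k}

lemma mp_ge {V : Type} [Fintype V] (G : SimpleGraph V) (S : Finset V)
    (hS : IsMonophonicPositionSet G S) : S.card ≤ mp G := by
  refine le_csSup ⟨Fintype.card V, ?_⟩ ⟨S, hS, rfl⟩
  rintro k ⟨T, _, rfl⟩
  exact Finset.card_le_univ T

/-- a set of three vertices is a monophonic position set if the three vertices do not lie on an
induced path -/
lemma three {V : Type} [DecidableEq V] (G : SimpleGraph V) (a b c : V) (hab : a ≠ b) (hac : a ≠ c)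
    (hbc : b ≠ c) (h : ∀ (m : ℕ) (φ : pathGraph m ↪g G) (i j k : Fin m), φ i = a → φ j = b →
      φ k = c → False) : 3 ≤ (({a, b, c} : Finset V)).card ∧
      IsMonophonicPositionSet G ({a, b, c} : Finset V) := by
  constructor
  · rw [Finset.card_eq_three.2 ⟨a, b, c, hab, hac, hbc, rfl⟩]
  · intro x hx y hy z hz hxy hxz hyz m φ ⟨⟨i, hi⟩, ⟨j, hj⟩, ⟨k, hk⟩⟩
    simp only [Finset.mem_insert, Finset.mem_singleton] at hx hy hz
    rcases hx with rfl | rfl | rfl <;> rcases hy with rfl | rfl | rfl <;>
      rcases hz with rfl | rfl | rfl <;>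
      first
        | exact absurd rfl hxy
        | exact absurd rfl hxz
        | exact absurd rfl hyz
        | exact h m φ i j k hi hj hk
        | exact h m φ i k j hi hk hj
        | exact h m φ j i k hj hi hk
        | exact h m φ j k i hj hk hi
        | exact h m φ k i j hk hi hj
        | exact h m φ k j i hk hj hi

lemma triangle {V : Type} (G : SimpleGraph V) (a b c : V) (hab : G.Adj a b)
    (hac : G.Adj a c) (hbc : G.Adj b c) (m : ℕ) (φ : pathGraph m ↪g G) (i j k : Fin m)
    (hi : φ i = a) (hj : φ j = b) (hk : φ k = c) : False := by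
  subst hi hj hk
  rw [φ.map_adj_iff, pathGraph_adj] at hab hac hbc
  omega

lemma twins {V : Type} (G : SimpleGraph V) (a b c : V) (hab : a ≠ b) (hac : a ≠ c) (hbc : b ≠ c)
    (hnab : ¬ G.Adj a b) (hnac : ¬ G.Adj a c) (htw : ∀ t, G.Adj a t ↔ G.Adj b t)
    (m : ℕ) (φ : pathGraph m ↪g G) (i j k : Fin m)
    (hi : φ i = a) (hj : φ j = b) (hk : φ k = c) : False := by
  subst hi hj hk
  have hij : i.val ≠ j.val := fun h => hab (by rw [Fin.ext h])
  have hik : i.val ≠ k.val := fun h => hac (by rw [Fin.ext h])
  have hjk : j.val ≠ k.val := fun h => hbc (by rw [Fin.ext h])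
  rw [φ.map_adj_iff, pathGraph_adj] at hnab hnac
  have key : ∀ t : Fin m, (i.val + 1 = t.val ∨ t.val + 1 = i.val) ↔
      (j.val + 1 = t.val ∨ t.val + 1 = j.val) := by
    intro t
    have := htw (φ t)
    rwa [φ.map_adj_iff, φ.map_adj_iff, pathGraph_adj, pathGraph_adj] at this
  have hil := i.isLt
  have hjl := j.isLt
  have hkl := k.isLt
  -- the neighbours of `i` and of `j` in the path
  have h1 : i.val + 1 < m → j.val = i.val + 2 := by
    intro h
    have := (key ⟨i.val + 1, h⟩).1 (Or.inl rfl)
    simp only at this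
    omega
  have h2 : 0 < i.val → j.val + 2 = i.val := by
    intro h
    have := (key ⟨i.val - 1, by omega⟩).1 (Or.inr (by simp only; omega))
    simp only at this
    omega
  have h3 : j.val + 1 < m → i.val = j.val + 2 := by
    intro h
    have := (key ⟨j.val + 1, h⟩).2 (Or.inl rfl)
    simp only at this
    omega
  have h4 : 0 < j.val → i.val + 2 = j.val := by
    intro h
    have := (key ⟨j.val - 1, by omega⟩).2 (Or.inr (by simp only; omega))
    simp only at this
    omega
  omega

/-- the index of the class `{d, -d}` -/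
def idx : ZMod 15 → Fin 7 := ![0, 0, 1, 2, 3, 4, 5, 6, 6, 5, 4, 3, 2, 1, 0]

/-- the element of the class with the given index -/
def rep : Fin 7 → ZMod 15 := ![1, 2, 3, 4, 5, 6, 7]

/-- the connection set given by the classes it contains -/
def A (c : Fin 7 → Bool) (d : ZMod 15) : Bool := (!decide (d = 0)) && c (idx d)

lemma rep_idx : ∀ d : ZMod 15, d ≠ 0 → rep (idx d) = d ∨ rep (idx d) = -d := by decide +kernel

lemma rep_ne : ∀ i, rep i ≠ 0 := by decide +kernel

lemma check : ∀ c : Fin 7 → Bool,
    (∃ a b : ZMod 15, A c a = true ∧ A c b = true ∧ A c (a + b) = true) ∨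
    (∃ d : ZMod 15, d ≠ 0 ∧ A c d = false ∧ ∀ a, ¬ (A c a = true ∧ A c (d - a) = true)) ∨
    (∃ d z : ZMod 15, d ≠ 0 ∧ z ≠ 0 ∧ z ≠ d ∧ A c d = false ∧ A c z = false ∧
      ∀ t, A c t = A c (t - d)) := by
  decide +kernel

lemma adj_iff (s : Set (ZMod 15)) :
    ∃ c : Fin 7 → Bool, ∀ x y, (circulantGraph s).Adj x y ↔ A c (x - y) = true := by
  classical
  refine ⟨fun i => decide (rep i ∈ s ∨ -rep i ∈ s), fun x y => ?_⟩
  have hyx : y - x = -(x - y) := by ring
  rw [circulantGraph_adj]
  unfold A
  by_cases hxy : x = y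
  · simp [hxy]
  · have hne : x - y ≠ 0 := sub_ne_zero.2 hxy
    rw [hyx]
    simp only [hne, decide_false, Bool.not_false, Bool.true_and, decide_eq_true_eq]
    rcases rep_idx (x - y) hne with h | h
    · rw [h]
      simp [hxy]
    · rw [h, neg_neg]
      constructor
      · rintro ⟨-, h1⟩
        exact h1.symm
      · intro h1
        exact ⟨hxy, h1.symm⟩

/-- two vertices of a graph of diameter two are equal, adjacent or have a common neighbour -/
lemma common {V : Type} (G : SimpleGraph V) (hc : G.Connected) (hd : G.diam = 2) (x y : V)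
    (hxy : x ≠ y) (hn : ¬ G.Adj x y) : ∃ z, G.Adj x z ∧ G.Adj z y := by
  have he : G.ediam ≠ ⊤ := by
    intro h
    rw [SimpleGraph.diam, h] at hd
    simp at hd
  have h1 : G.dist x y ≤ 2 := hd ▸ dist_le_diam he
  obtain ⟨p, hp⟩ := (hc.preconnected x y).exists_walk_length_eq_dist
  rw [← hp] at h1
  match p, h1 with
  | .nil, _ => exact absurd rfl hxy
  | .cons h .nil, _ => exact absurd h hn
  | .cons h (.cons h' .nil), _ => exact ⟨_, h, h'⟩
  | .cons _ (.cons _ (.cons _ _)), h => simp at h

/-- **There is no circulant graph of order 15 with monophonic position number 2 and diameter 2.** -/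
theorem result : ∀ s : Set (ZMod 15),
    ¬ ((circulantGraph s).Connected ∧ (circulantGraph s).diam = 2 ∧ mp (circulantGraph s) = 2) := by
  rintro s ⟨hc, hd, hm⟩
  obtain ⟨c, hadj⟩ := adj_iff s
  suffices h : ∃ S : Finset (ZMod 15), 3 ≤ S.card ∧
      IsMonophonicPositionSet (circulantGraph s) S by
    obtain ⟨S, h3, hS⟩ := h
    have := mp_ge _ S hS
    omega
  rcases check c with ⟨a, b, ha, hb, hab⟩ | ⟨d, hd0, hd1, hd2⟩ | ⟨d, z, hd0, hz0, hzd, hd1, hz1, ht⟩
  · -- a triangle
    have h1 : (circulantGraph s).Adj (a + b) 0 := by rw [hadj, sub_zero]; exact hab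
    have h2 : (circulantGraph s).Adj (a + b) b := by rw [hadj, add_sub_cancel_right]; exact ha
    have h3 : (circulantGraph s).Adj b 0 := by rw [hadj, sub_zero]; exact hb
    exact ⟨_, three _ (a + b) b 0 h2.ne h1.ne h3.ne
      (fun m φ i j k hi hj hk => triangle _ _ _ _ h2 h1 h3 m φ i j k hi hj hk)⟩
  · -- diameter at least three
    exfalso
    have hn : ¬ (circulantGraph s).Adj d 0 := by
      rw [hadj, sub_zero, hd1]
      simp
    obtain ⟨z, h1, h2⟩ := common _ hc hd d 0 hd0 hn
    rw [hadj] at h1 h2
    rw [sub_zero] at h2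
    exact hd2 z ⟨h2, h1⟩
  · -- twins
    have hn1 : ¬ (circulantGraph s).Adj d 0 := by
      rw [hadj, sub_zero, hd1]
      simp
    have hn2 : ¬ (circulantGraph s).Adj z 0 := by
      rw [hadj, sub_zero, hz1]
      simp
    exact ⟨_, three _ 0 d z hd0.symm hz0.symm hzd.symm
      (fun m φ i j k hi hj hk => twins _ 0 d z hd0.symm hz0.symm hzd.symm
        (fun h => hn1 h.symm) (fun h => hn2 h.symm)
        (fun t => by
          rw [adj_comm, (circulantGraph s).adj_comm d t, hadj, hadj, sub_zero, ht t])
        m φ i j k hi hj hk)⟩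

end Pool.Agent.Results.MP_1f00fa_co.NoOrderFifteen
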